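import Pool.Agent.R441.Num

/-!
The conjectured value of `S'_p = ∑_{k<p} binom(2k,k) T_{2k}(4,-3) / 16^k` modulo `p²` for
`p = x² + 3 y²`, `x ≡ 1 (mod 3)` is wrong for `p = 7`.
-/

set_option autoImplicit false

namespace Pool.Agent.Results.MP_b67006_nt.SevenFails

open Pool.Agent.R441 (CongMod not_congMod)

/-- `T_n(b,c) = ∑_j binom(n,2j) binom(2j,j) b^(n-2j) c^j` -/
def T (b c : ℤ) (n : ℕ) : ℤ :=
  ∑ j ∈ Finset.range (n / 2 + 1),
    (n.choose (2 * j) : ℤ) * ((2 * j).choose j : ℤ) * b ^ (n - 2 * j) * c ^ j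

/-- `S_p = ∑_{k ≤ (p-1)/2} binom(2k,k) T_{2k}(2,3) / 16^k` -/
def S (p : ℕ) : ℚ := ∑ k ∈ Finset.range ((p - 1) / 2 + 1),
  ((2 * k).choose k : ℚ) / 16 ^ k * ((T 2 3 (2 * k) : ℤ) : ℚ)

/-- `S'_p = ∑_{k < p} binom(2k,k) T_{2k}(4,-3) / 16^k` -/
def S' (p : ℕ) : ℚ := ∑ k ∈ Finset.range p,
  ((2 * k).choose k : ℚ) / 16 ^ k * ((T 4 (-3) (2 * k) : ℤ) : ℚ)

/-- Statement (a) for the prime `p` -/
def PartA (p : ℕ) : Prop := ∀ x y : ℤ, p % 3 = 1 → (p : ℤ) = x ^ 2 + 3 * y ^ 2 → x % 3 = 1 →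
  CongMod p 2 (S p) (S' p) ∧ CongMod p 2 (S' p) (jacobiSym (-1) p * (2 * x - p / (2 * x)))

/-- Statement (b) for the prime `p` -/
def PartB (p : ℕ) : Prop := p % 3 = 2 → CongMod p 1 (S p) (S' p) ∧ CongMod p 1 (S' p) 0

/-- There is a prime `p > 3` (namely `p = 7`) for which (a) and (b) do not both hold; it is (a)
that fails, both congruences in it being false for `p = 7`, `x = -2`, `y = 1`. -/
theorem result : ∃ p : ℕ, p = 7 ∧ p.Prime ∧ 3 < p ∧ ¬ PartA p ∧ ¬ (PartA p ∧ PartB p) ∧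
    ¬ CongMod p 2 (S p) (S' p) ∧
    ¬ CongMod p 2 (S' p) (jacobiSym (-1) p * (2 * (-2) - p / (2 * (-2)))) := by
  have j : jacobiSym (-1) 7 = -1 := by norm_num
  have k1 : ¬ CongMod 7 2 (S 7) (S' 7) :=
    not_congMod (by norm_num) (by decide +kernel)
  have k2 : ¬ CongMod 7 2 (S' 7) (jacobiSym (-1) 7 * (2 * (-2) - (7 : ℕ) / (2 * (-2)))) := by
    rw [j]
    exact not_congMod (by norm_num) (by decide +kernel)
  have k3 : ¬ PartA 7 := fun h =>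
    k1 (h (-2) 1 (by norm_num) (by norm_num) (by norm_num)).1
  exact ⟨7, rfl, by norm_num, by norm_num, k3, fun h => k3 h.1, k1, k2⟩

end Pool.Agent.Results.MP_b67006_nt.SevenFails
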